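import Mathlib

namespace Pool.Agent.H.MP_a87126_al

open Finset

theorem count {H Ω : Type} [Group H] [Fintype H] [Fintype Ω] [MulAction H Ω]
    [MulAction.IsPretransitive H Ω] (P : Subgroup H) (α : Ω) (p k : ℕ)
    (hp : Nat.card P = p) (hα : ∀ y ∈ P, y • α = α)
    (hfree : ∀ y ∈ P, ∀ β, β ≠ α → y • β = β → y = 1) (r : H) (hr : r * r = 1)
    (hrα : r • α = α) (hinv : ∀ y ∈ P, r * y * r⁻¹ = y⁻¹)
    (hodd : ∀ y ∈ P, y * y = 1 → y = 1) (hn : Fintype.card Ω = 1 + k * p) (hk : 1 ≤ k) :
    p ^ 2 * (p - 1) ≤ 2 * Fintype.card H := by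
  classical
  set PF : Finset H := univ.filter (· ∈ P) with hPF
  have hPc : PF.card = p := by
    rw [← hp, Nat.card_eq_fintype_card, Fintype.card_subtype]
  have hp0 : 0 < p := by
    rw [← hp]; exact Nat.card_pos
  set I : Finset H := univ.filter (fun t => ∃ g : H, g * r * g⁻¹ = t) with hI
  have hII : ∀ t ∈ I, t * t = 1 := by
    intro t ht
    obtain ⟨g, rfl⟩ := (mem_filter.1 ht).2
    calc g * r * g⁻¹ * (g * r * g⁻¹) = g * (r * r) * g⁻¹ := by group
      _ = 1 := by rw [hr]; group
  -- (a)
  have ha : (univ.filter (fun β : Ω => r • β = β)).card ≤ k + 1 := by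
    have h1 : (PF ×ˢ (univ.filter (fun β : Ω => r • β = β)).erase α).card ≤
        (univ.erase α).card := by
      apply card_le_card_of_injOn (fun q => q.1 • q.2)
      · intro q hq
        simp only [coe_product, Set.mem_prod, mem_coe, mem_erase, hPF, mem_filter, mem_univ,
          true_and] at hq
        simp only [mem_coe, mem_erase, mem_univ, and_true]
        intro h
        apply hq.2.1
        rw [smul_eq_iff_eq_inv_smul] at h
        rw [h, hα _ (P.inv_mem hq.1)]
      · rintro ⟨y, β⟩ hq ⟨y', β'⟩ hq' h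
        simp only [coe_product, Set.mem_prod, mem_coe, mem_erase, hPF, mem_filter, mem_univ,
          true_and] at hq hq'
        simp only at h
        have hz : y'⁻¹ * y ∈ P := P.mul_mem (P.inv_mem hq'.1) hq.1
        have hb : (y'⁻¹ * y) • β = β' := by rw [mul_smul, h, inv_smul_smul]
        set z := y'⁻¹ * y with hzdef
        have h2 : z⁻¹ • β = β' := by
          rw [← hinv z hz, mul_smul, mul_smul]
          have : r⁻¹ • β = β := by rw [inv_smul_eq_iff, hq.2.2]
          rw [this, hb, hq'.2.2]
        have h3 : (z * z) • β = β := by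
          rw [mul_smul, hb, ← h2, smul_inv_smul]
        have h4 := hodd z hz (hfree _ (P.mul_mem hz hz) β hq.2.1 h3)
        have hy : y = y' := by
          rw [hzdef, inv_mul_eq_one] at h4; exact h4.symm
        rw [h4, one_smul] at hb
        rw [hy, hb]
    rw [card_product, hPc, card_erase_of_mem (mem_univ _), card_univ, hn,
      card_erase_of_mem (by simp [hrα])] at h1
    have h2 : p * ((univ.filter (fun β : Ω => r • β = β)).card - 1) ≤ p * k := by
      rw [mul_comm p k]; omega
    have := Nat.le_of_mul_le_mul_left h2 hp0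
    omega
  have ha' : ∀ t ∈ I, (univ.filter (fun β : Ω => t • β = β)).card ≤ k + 1 := by
    intro t ht
    obtain ⟨g, rfl⟩ := (mem_filter.1 ht).2
    refine le_trans ?_ ha
    apply card_le_card_of_injOn (fun β => g⁻¹ • β)
    · intro β hβ
      simp only [mem_coe, mem_filter, mem_univ, true_and] at hβ ⊢
      rw [mul_smul, mul_smul, smul_eq_iff_eq_inv_smul] at hβ
      exact hβ
    · intro β _ β' _ h
      exact MulAction.injective g⁻¹ h
  -- (b)
  have hb : ∀ β : Ω, p ≤ (I.filter (fun t => t • β = β)).card := by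
    intro β
    obtain ⟨g, rfl⟩ := MulAction.exists_smul_eq H α β
    rw [← hPc]
    apply card_le_card_of_injOn (fun y => (g * y) * r * (g * y)⁻¹)
    · intro y hy
      simp only [mem_coe, hPF, mem_filter, mem_univ, true_and] at hy
      simp only [mem_coe, mem_filter, hI, mem_univ, true_and]
      refine ⟨⟨_, rfl⟩, ?_⟩
      rw [mul_inv_rev, mul_smul, mul_smul, mul_smul, mul_smul, inv_smul_smul,
        hα _ (P.inv_mem hy), hrα, hα _ hy]
    · intro y hy y' hy' h
      simp only [mem_coe, hPF, mem_filter, mem_univ, true_and] at hy hy'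
      simp only at h
      have hz : y'⁻¹ * y ∈ P := P.mul_mem (P.inv_mem hy') hy
      set z := y'⁻¹ * y with hzdef
      have h1 : z * r = r * z := by
        calc z * r = (g * y')⁻¹ * ((g * y) * r * (g * y)⁻¹) * (g * y) := by rw [hzdef]; group
          _ = r * z := by rw [h, hzdef]; group
      have h2 : z * z = 1 := by
        have := hinv z hz
        rw [← h1, mul_inv_cancel_right] at this
        nth_rewrite 1 [this]; simp
      have h4 := hodd z hz h2
      rw [hzdef, inv_mul_eq_one] at h4; exact h4.symm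
  -- (c)
  have hc : ∀ β : Ω, p * (I.filter (fun t => ¬ t • β = β)).card ≤ Fintype.card H := by
    intro β
    obtain ⟨g, rfl⟩ := MulAction.exists_smul_eq H α β
    rw [← hPc, ← card_product, ← card_univ]
    apply card_le_card_of_injOn (fun q => q.2 * (g * q.1 * g⁻¹))
    · intro q _; simp
    · rintro ⟨y, t⟩ hq ⟨y', t'⟩ hq' h
      simp only [coe_product, Set.mem_prod, mem_coe, hPF, mem_filter, mem_univ,
          true_and] at hq hq'
      simp only at h
      have e1 : ∀ y ∈ P, (g * y * g⁻¹) • g • α = g • α := by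
        intro y hy
        rw [mul_smul, mul_smul, inv_smul_smul, hα y hy]
      have h1 : t • g • α = t' • g • α := by
        have := congrArg (fun u => u • g • α) h
        simp only [mul_smul t, mul_smul t'] at this
        rwa [e1 y hq.1, e1 y' hq'.1] at this
      have ht := hII t hq.2.1
      have ht' := hII t' hq'.2.1
      have hz : y' * y⁻¹ ∈ P := P.mul_mem hq'.1 (P.inv_mem hq.1)
      have h2 : t' * t = g * (y' * y⁻¹) * g⁻¹ := by
        calc t' * t = t' * (t * (g * y * g⁻¹)) * (g * y⁻¹ * g⁻¹) := by group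
          _ = (t' * t') * g * (y' * y⁻¹) * g⁻¹ := by rw [h]; group
          _ = _ := by rw [ht']; group
      have h3 : (y' * y⁻¹) • (g⁻¹ • t • g • α) = g⁻¹ • t • g • α := by
        have h5 : (t' * t) • (t • g • α) = t • g • α := by
          rw [mul_smul, ← mul_smul t t, ht, one_smul, h1]
        rw [h2, mul_smul, mul_smul, smul_eq_iff_eq_inv_smul] at h5
        exact h5
      have h4 : y' * y⁻¹ = 1 := by
        apply hfree _ hz _ _ h3
        intro h6
        apply hq.2.2
        rw [inv_smul_eq_iff] at h6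
        exact h6
      have hy : y = y' := by rw [mul_inv_eq_one] at h4; exact h4.symm
      subst hy
      have := mul_right_cancel h
      rw [this]
  -- double counting
  have hd1 : ∑ β : Ω, (I.filter (fun t => t • β = β)).card =
      ∑ t ∈ I, (univ.filter (fun β : Ω => t • β = β)).card := by
    simp only [card_filter]
    exact sum_comm
  set A := ∑ β : Ω, (I.filter (fun t => t • β = β)).card with hA
  set B := ∑ β : Ω, (I.filter (fun t => ¬ t • β = β)).card with hB
  have hAB : A + B = (1 + k * p) * I.card := by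
    rw [hA, hB, ← sum_add_distrib]
    simp only [card_filter_add_card_filter_not]
    rw [sum_const, card_univ, hn, smul_eq_mul]
  have hA1 : (1 + k * p) * p ≤ A := by
    rw [← hn, ← card_univ, ← smul_eq_mul, ← sum_const]
    exact sum_le_sum fun β _ => hb β
  have hA2 : A ≤ I.card * (k + 1) := by
    rw [hd1, ← smul_eq_mul, ← sum_const]
    exact sum_le_sum ha'
  have hB1 : p * B ≤ (1 + k * p) * Fintype.card H := by
    rw [hB, mul_sum, ← hn, ← card_univ (α := Ω), ← smul_eq_mul (a := (univ : Finset Ω).card),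
      ← sum_const]
    exact sum_le_sum fun β _ => hc β
  obtain ⟨q, rfl⟩ : ∃ q, p = q + 1 := ⟨p - 1, by omega⟩
  simp only [Nat.add_sub_cancel]
  set m := I.card
  set N := Fintype.card H
  have hB2 : m * (k * q) ≤ B := by nlinarith
  have h5 : (1 + k * (q + 1)) * ((q + 1) ^ 2 * q * k) ≤ (1 + k * (q + 1)) * ((k + 1) * N) := by
    calc (1 + k * (q + 1)) * ((q + 1) ^ 2 * q * k)
        = ((1 + k * (q + 1)) * (q + 1)) * ((q + 1) * q * k) := by ring
      _ ≤ (m * (k + 1)) * ((q + 1) * q * k) := Nat.mul_le_mul_right _ (hA1.trans hA2)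
      _ = (k + 1) * ((q + 1) * (m * (k * q))) := by ring
      _ ≤ (k + 1) * ((q + 1) * B) := Nat.mul_le_mul_left _ (Nat.mul_le_mul_left _ hB2)
      _ ≤ (k + 1) * ((1 + k * (q + 1)) * N) := Nat.mul_le_mul_left _ hB1
      _ = _ := by ring
  have h6 := Nat.le_of_mul_le_mul_left h5 (by omega)
  have h7 : k * ((q + 1) ^ 2 * q) ≤ k * (2 * N) := by nlinarith
  exact Nat.le_of_mul_le_mul_left h7 (by omega)

end Pool.Agent.H.MP_a87126_al
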