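import Mathlib

namespace Pool.Agent.H.MP_a87126_al

abbrev M : Type := ZMod 2 × ZMod 2 × ZMod 2

def cc : Fin 7 → M := ![(1,0,0),(0,1,0),(0,0,1),(1,1,0),(1,0,1),(0,1,1),(1,1,1)]

def chi (i : Fin 7) (m : M) : ZMod 2 := (cc i).1 * m.1 + (cc i).2.1 * m.2.1 + (cc i).2.2 * m.2.2

theorem chi_add (i : Fin 7) (m n : M) : chi i (m + n) = chi i m + chi i n := by
  simp only [chi, Prod.fst_add, Prod.snd_add]; ring

theorem chi_sep : ∀ m : M, (∀ i, chi i m = 0) → m = 0 := by decide

theorem M_two : ∀ m : M, m + m = 0 := by decide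

theorem lin : ∀ a b c : M, a + b = c → b = c + a := by
  intro a b c h; rw [← h, add_right_comm, M_two, zero_add]

theorem fano {L : Type} [Group L] [Finite L] (hL : Nat.card L < 128) (r s : M → L)
    (hr : ∀ m n, r (m + n) = r m * r n) (hrc : ∀ m h, r m * h = h * r m)
    (hs : ∀ m, s m ^ 2 = r m) (hs0 : s 0 = 1) (S : Fin 7 → Subgroup L)
    (h1 : ∀ i m, chi i m = 0 → s m ∈ S i) (h2 : ∀ i m, r m ∈ S i → chi i m = 0) : False := by
  have hr0 : r 0 = 1 := by rw [← hs, hs0, one_pow]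
  have hrr : ∀ m, r m * r m = 1 := fun m => by rw [← hr, M_two, hr0]
  have hrinj : ∀ m n, r m = r n → m = n := by
    intro m n h
    have h3 : r (m + n) = 1 := by rw [hr, h, hrr]
    have h4 := chi_sep (m + n) fun i => h2 i _ (h3 ▸ (S i).one_mem)
    have := lin _ _ _ h4
    rw [this, zero_add]
  have hsq : ∀ (t : L) n, (t * r n) ^ 2 = t ^ 2 := by
    intro t n
    calc (t * r n) ^ 2 = t * (r n * t) * r n := by rw [sq]; group
      _ = t ^ 2 * (r n * r n) := by rw [hrc, sq]; group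
      _ = _ := by rw [hrr, mul_one]
  have hinj : ∀ t : M → L, (∀ m, t m ^ 2 = r m) →
      Function.Injective (fun q : M × M => t q.1 * r q.2) := by
    rintro t ht ⟨m, n⟩ ⟨m', n'⟩ h
    simp only at h
    have h3 : m = m' := by
      apply hrinj
      rw [← ht, ← ht, ← hsq _ n, h, hsq]
    subst h3
    rw [hrinj _ _ (mul_left_cancel h)]
  have hMM : Nat.card (M × M) = 64 := by simp
  obtain ⟨P⟩ : Nonempty (Sylow 2 L) := inferInstance
  have hconj : ∀ m, ∃ t : L, t ∈ P ∧ t ^ 2 = r m := by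
    intro m
    have hz : IsPGroup 2 (Subgroup.zpowers (s m)) := by
      have : s m ^ (2 ^ 2) = 1 := by
        rw [show (2:ℕ) ^ 2 = 2 + 2 by norm_num, pow_add, hs, hrr]
      obtain ⟨e, -, he⟩ := (Nat.dvd_prime_pow Nat.prime_two).1 (orderOf_dvd_of_pow_eq_one this)
      exact IsPGroup.of_card (n := e) (by rw [Nat.card_zpowers, he])
    obtain ⟨Q, hQ⟩ := hz.exists_le_sylow
    obtain ⟨g, hg⟩ := MulAction.exists_smul_eq L Q P
    refine ⟨g * s m * g⁻¹, ?_, ?_⟩
    · rw [← hg]
      exact ⟨s m, hQ (Subgroup.mem_zpowers _), rfl⟩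
    · rw [conj_pow, hs, ← hrc]; group
  choose t htP ht using hconj
  have hP64 : 64 ≤ Nat.card P := by
    rw [← hMM]
    apply Nat.card_le_card_of_injective
      (fun q : M × M => (⟨t q.1 * r q.2, (P : Subgroup L).mul_mem (htP _)
        (ht q.2 ▸ (P : Subgroup L).pow_mem (htP _) 2)⟩ : P))
    intro q q' h
    exact hinj t ht (congrArg Subtype.val h)
  have hL64 : Nat.card L = 64 := by
    obtain ⟨e, he⟩ := IsPGroup.iff_card.1 P.2
    have h3 : 2 ^ e ∣ Nat.card L := he ▸ Subgroup.card_subgroup_dvd_card (P : Subgroup L)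
    have h4 : 2 ^ 6 ≤ 2 ^ e := by rw [← he]; exact hP64
    have h5 := (Nat.pow_le_pow_iff_right (by norm_num)).1 h4
    obtain ⟨c, hc⟩ := (pow_dvd_pow 2 h5).trans h3
    have : 0 < Nat.card L := Nat.card_pos
    omega
  have hsurj := ((Nat.bijective_iff_injective_and_card _).2
    ⟨hinj s hs, by rw [hMM, hL64]⟩).2
  have key : ∀ m m' i, m ≠ 0 → m' ≠ 0 → m ≠ m' → chi i m = 0 → chi i m' = 0 →
      (∀ n, chi i n = 0 → n = 0 ∨ n = m ∨ n = m' ∨ n = m + m') →
      ∃ n, chi i n = 0 ∧ s m * s m' = s (m + m') * r n ∧ s m' * s m = s m * s m' := by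
    intro m m' i hm hm' hmm h3 h4 hspan
    obtain ⟨⟨u, n⟩, h⟩ := hsurj (s m * s m')
    simp only at h
    have hin : s m * s m' ∈ S i := (S i).mul_mem (h1 i m h3) (h1 i m' h4)
    have hu : r u ∈ S i := by
      rw [← hs, ← hsq _ n, h]; exact (S i).pow_mem hin 2
    have hu' : u = m + m' := by
      rcases hspan u (h2 i u hu) with rfl | rfl | rfl | rfl
      · exfalso
        apply hmm
        apply hrinj
        rw [hs0, one_mul] at h
        have h5 : s m = (s m')⁻¹ * r n := by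
          rw [← hrc, h]; group
        rw [← hs, h5, hsq, inv_pow, hs, inv_eq_iff_mul_eq_one, hrr]
      · exfalso
        apply hm'
        apply hrinj
        rw [← hs, ← mul_left_cancel h, sq, hrr, hr0]
      · exfalso
        apply hm
        apply hrinj
        rw [← hrc] at h
        rw [← hs, ← mul_right_cancel h, sq, hrr, hr0]
      · rfl
    subst hu'
    refine ⟨n, h2 i n ?_, h.symm, ?_⟩
    · have : r n = (s (m + m'))⁻¹ * (s m * s m') := by rw [← h]; group
      rw [this]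
      exact (S i).mul_mem ((S i).inv_mem (h1 i _ (by rw [chi_add, h3, h4, add_zero]))) hin
    · have h5 : (s m * s m') ^ 2 = s m ^ 2 * s m' ^ 2 := by rw [← h, hsq, hs, hr, hs, hs]
      calc s m' * s m = (s m)⁻¹ * (s m * s m') ^ 2 * (s m')⁻¹ := by rw [sq]; group
        _ = _ := by rw [h5, sq, sq]; group
  obtain ⟨a, ha, ea, ca⟩ := key (1,0,0) (0,1,0) 2 (by decide) (by decide) (by decide) (by decide)
    (by decide) (by decide)
  obtain ⟨b, hb, eb, -⟩ := key (1,1,0) (0,0,1) 3 (by decide) (by decide) (by decide) (by decide)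
    (by decide) (by decide)
  obtain ⟨c, hc, ec, cc'⟩ := key (0,1,0) (0,0,1) 0 (by decide) (by decide) (by decide) (by decide)
    (by decide) (by decide)
  obtain ⟨d, hd, ed, -⟩ := key (1,0,0) (0,1,1) 5 (by decide) (by decide) (by decide) (by decide)
    (by decide) (by decide)
  obtain ⟨e, he, ee, -⟩ := key (1,0,0) (0,0,1) 1 (by decide) (by decide) (by decide) (by decide)
    (by decide) (by decide)
  obtain ⟨f, hf, ef, -⟩ := key (1,0,1) (0,1,0) 4 (by decide) (by decide) (by decide) (by decide)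
    (by decide) (by decide)
  obtain ⟨g, hg, eg, -⟩ := key (1,1,0) (1,0,1) 6 (by decide) (by decide) (by decide) (by decide)
    (by decide) (by decide)
  rw [show ((1,0,0) : M) + (0,1,0) = (1,1,0) by decide] at ea
  rw [show ((1,1,0) : M) + (0,0,1) = (1,1,1) by decide] at eb
  rw [show ((0,1,0) : M) + (0,0,1) = (0,1,1) by decide] at ec
  rw [show ((1,0,0) : M) + (0,1,1) = (1,1,1) by decide] at ed
  rw [show ((1,0,0) : M) + (0,0,1) = (1,0,1) by decide] at ee
  rw [show ((1,0,1) : M) + (0,1,0) = (1,1,1) by decide] at ef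
  rw [show ((1,1,0) : M) + (1,0,1) = (0,1,1) by decide] at eg
  set x := s (1,0,0) with hx
  set y := s (0,1,0)
  set z := s (0,0,1)
  set w := s (1,1,1)
  have E1 : x * y * z = w * r (b + a) := by
    rw [ea, mul_assoc, hrc, ← mul_assoc, eb, hr, mul_assoc]
  have E2 : x * y * z = w * r (d + c) := by
    rw [mul_assoc, ec, ← mul_assoc, ed, hr, mul_assoc]
  have E3 : x * y * z = w * r (f + e) := by
    rw [mul_assoc, ← cc', ← mul_assoc, ee, mul_assoc, hrc, ← mul_assoc, ef, hr, mul_assoc]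
  have E4 : s (0,1,1) * r (g + e + a) = s (0,1,1) * r (c + (1,0,0)) := by
    calc s (0,1,1) * r (g + e + a) = (s (0,1,1) * r g) * r e * r a := by
          rw [hr, hr]; group
      _ = s (1,1,0) * ((s (1,0,1) * r e) * r a) := by rw [← eg]; group
      _ = (s (1,1,0) * r a) * (s (1,0,1) * r e) := by rw [← hrc a]; group
      _ = (y * x) * (x * z) := by rw [← ea, ← ee, ca]
      _ = y * (x ^ 2 * z) := by rw [sq]; group
      _ = (y * z) * r (1,0,0) := by rw [hx, hs, hrc]; group
      _ = _ := by rw [ec, hr]; group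
  have F1 := hrinj _ _ (mul_left_cancel (E1.symm.trans E2))
  have F2 := hrinj _ _ (mul_left_cancel (E1.symm.trans E3))
  have F3 := hrinj _ _ (mul_left_cancel E4)
  obtain ⟨a1, a2, a3⟩ := a
  obtain ⟨b1, b2, b3⟩ := b
  obtain ⟨c1, c2, c3⟩ := c
  obtain ⟨d1, d2, d3⟩ := d
  obtain ⟨e1, e2, e3⟩ := e
  obtain ⟨f1, f2, f3⟩ := f
  obtain ⟨g1, g2, g3⟩ := g
  simp only [Prod.mk_add_mk, Prod.mk.injEq] at F1 F2 F3
  have ha' : a3 = 0 := by simpa [chi, cc] using ha
  have hb' : b1 + b2 = 0 := by simpa [chi, cc] using hb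
  have hc' : c1 = 0 := by simpa [chi, cc] using hc
  have hd' : d2 + d3 = 0 := by simpa [chi, cc] using hd
  have he' : e2 = 0 := by simpa [chi, cc] using he
  have hf' : f1 + f3 = 0 := by simpa [chi, cc] using hf
  have hg' : g1 + g2 + g3 = 0 := by simpa [chi, cc] using hg
  obtain ⟨F11, F12, F13⟩ := F1
  obtain ⟨F21, F22, F23⟩ := F2
  obtain ⟨F31, F32, F33⟩ := F3
  have h20 : (2 : ZMod 2) = 0 := by decide
  have : (1 : ZMod 2) = 0 := by
    linear_combination -F31 - F32 - F33 + hg' - hc' + he' + ha' + F12 + F13 - F21 - F23 + hd'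
      - hf' + hb' + (a1 - b2) * h20
  exact absurd this (by decide)

end Pool.Agent.H.MP_a87126_al
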