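import Mathlib
import Pool.Agent.H.MP_a87126_al.Count

namespace Pool.Agent.H.MP_a87126_al

theorem notnorm {H : Type} [Group H] (p : ℕ) (hp : p.Prime) (h3 : p % 4 = 3) (x s : H)
    (hx : orderOf x = p) (hinv : s ^ 2 * x * (s ^ 2)⁻¹ = x⁻¹) :
    s * x * s⁻¹ ∉ Subgroup.zpowers x := by
  haveI : Fact p.Prime := ⟨hp⟩
  intro h
  obtain ⟨a, ha⟩ := Subgroup.mem_zpowers_iff.1 h
  have h1 : x ^ (a * a) = x⁻¹ := by
    rw [← hinv, zpow_mul, ha, conj_zpow, ha, sq]; group
  have h2 : x ^ (a * a + 1) = 1 := by rw [zpow_add, h1]; simp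
  rw [← orderOf_dvd_iff_zpow_eq_one, hx] at h2
  have h4 := (ZMod.intCast_zmod_eq_zero_iff_dvd _ p).2 h2
  push_cast at h4
  apply ZMod.mod_four_ne_three_of_sq_eq_neg_one (p := p) (y := (a : ZMod p)) _ h3
  rw [sq]; exact eq_neg_of_add_eq_zero_left h4

theorem sec {H : Type} [Group H] [Finite H] (p : ℕ) (hp : p.Prime) (h3 : p % 4 = 3) (x s : H)
    (hx : orderOf x = p) (hr : s ^ 2 * s ^ 2 = 1) (hinv : s ^ 2 * x * (s ^ 2)⁻¹ = x⁻¹)
    (hc : 2 * Nat.card H < p ^ 2 * (p - 1)) :
    ∃ V : Subgroup H, V.Normal ∧ Nat.card V = p ^ 2 ∧ x ∈ V := by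
  classical
  haveI : Fact p.Prime := ⟨hp⟩
  have hZc : Nat.card (Subgroup.zpowers x) = p := by rw [Nat.card_zpowers, hx]
  have hZ : IsPGroup p (Subgroup.zpowers x) := IsPGroup.of_card (n := 1) (by rw [hZc, pow_one])
  obtain ⟨P, hP⟩ := hZ.exists_le_sylow
  have hp2 : 2 ≤ p := hp.two_le
  have hHpos : 0 < Nat.card H := Nat.card_pos
  have hlt : Nat.card H < p ^ 3 := by
    have : p ^ 2 * (p - 1) ≤ p ^ 3 := by
      rw [pow_succ p 2]; exact Nat.mul_le_mul_left _ (by omega)
    omega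
  have hsyl : ∀ Q : Sylow p H, ∃ e, Nat.card Q = p ^ e := fun Q => IsPGroup.iff_card.1 Q.2
  have hdvd : p ^ 2 ∣ Nat.card H := by
    by_contra hnd
    have hQc : ∀ Q : Sylow p H, Nat.card Q ≤ p := by
      intro Q
      obtain ⟨e, he⟩ := hsyl Q
      have h1 : p ^ e ∣ Nat.card H := he ▸ Subgroup.card_subgroup_dvd_card (Q : Subgroup H)
      have h2 : e ≤ 1 := by
        by_contra h
        exact hnd ((pow_dvd_pow p (by omega)).trans h1)
      rw [he]
      calc p ^ e ≤ p ^ 1 := Nat.pow_le_pow_right hp.pos h2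
        _ = p := pow_one p
    have hPZ : Subgroup.zpowers x = P :=
      Subgroup.eq_of_le_of_card_ge hP (by rw [hZc]; exact hQc P)
    have hmod := card_sylow_modEq_one p H
    have hnpos : 0 < Nat.card (Sylow p H) := Nat.card_pos
    obtain ⟨k, hk⟩ : ∃ k, Nat.card (Sylow p H) = 1 + k * p := by
      have := (Nat.modEq_iff_dvd' hnpos).1 hmod.symm
      obtain ⟨k, hk⟩ := this
      exact ⟨k, by rw [mul_comm]; omega⟩
    rcases Nat.eq_zero_or_pos k with rfl | hkpos
    · have hs : Subsingleton (Sylow p H) := by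
        rw [zero_mul, add_zero] at hk
        exact (Nat.card_eq_one_iff_unique.1 hk).1
      have hN := P.normal_of_subsingleton
      apply notnorm p hp h3 x s hx hinv
      rw [hPZ]
      exact hN.conj_mem x (hP (Subgroup.mem_zpowers x)) s
    · haveI := Fintype.ofFinite H
      haveI := Fintype.ofFinite (Sylow p H)
      have hinv' : ∀ y ∈ Subgroup.zpowers x, s ^ 2 * y * (s ^ 2)⁻¹ = y⁻¹ := by
        intro y hy
        obtain ⟨a, rfl⟩ := Subgroup.mem_zpowers_iff.1 hy
        rw [← conj_zpow, hinv, inv_zpow]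
      have hord : ∀ y ∈ Subgroup.zpowers x, y ≠ 1 → orderOf y = p := by
        intro y hy hy1
        have h1 : orderOf y ∣ p := hx ▸ orderOf_dvd_of_mem_zpowers hy
        rcases (Nat.dvd_prime hp).1 h1 with h | h
        · exact absurd (orderOf_eq_one_iff.1 h) hy1
        · exact h
      have := count (Subgroup.zpowers x) P p k hZc
        (fun y hy => Sylow.smul_eq_iff_mem_normalizer.2 (Subgroup.le_normalizer (hP hy)))
        (by
          intro y hy Q hQ hyQ
          by_contra hy1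
          apply hQ
          have h1 : y ∈ Subgroup.zpowers x ⊓ Subgroup.normalizer Q :=
            ⟨hy, Sylow.smul_eq_iff_mem_normalizer.1 hyQ⟩
          rw [hZ.inf_normalizer_sylow] at h1
          have h2 : Subgroup.zpowers y = Q := Subgroup.eq_of_le_of_card_ge
            (Subgroup.zpowers_le.2 h1.2) (by rw [Nat.card_zpowers, hord y hy hy1]; exact hQc Q)
          have h4 : Subgroup.zpowers y = P := Subgroup.eq_of_le_of_card_ge
            (Subgroup.zpowers_le.2 (hP hy)) (by rw [Nat.card_zpowers, hord y hy hy1]; exact hQc P)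
          exact Sylow.ext (h2.symm.trans h4))
        (s ^ 2) hr
        (by
          rw [Sylow.smul_eq_iff_mem_normalizer, ← P.coe_coe, ← hPZ]
          rw [Subgroup.mem_set_normalizer_iff]
          intro y
          constructor
          · intro hy
            rw [hinv' y hy]; exact Subgroup.inv_mem _ hy
          · intro hy
            have h1 := hinv' _ hy
            have h2 : s ^ 2 * (s ^ 2 * y * (s ^ 2)⁻¹) * (s ^ 2)⁻¹ = y := by
              calc s ^ 2 * (s ^ 2 * y * (s ^ 2)⁻¹) * (s ^ 2)⁻¹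
                  = (s ^ 2 * s ^ 2) * y * (s ^ 2 * s ^ 2)⁻¹ := by group
                _ = y := by rw [hr]; group
            rw [← h2, h1]; exact Subgroup.inv_mem _ hy)
        hinv'
        (by
          intro y hy hyy
          by_contra hy1
          have h1 : orderOf y ∣ 2 := orderOf_dvd_of_pow_eq_one (by rw [sq, hyy])
          rw [hord y hy hy1] at h1
          have := Nat.le_of_dvd (by norm_num) h1
          omega)
        (by rw [← Nat.card_eq_fintype_card, hk]) hkpos
      rw [← Nat.card_eq_fintype_card] at this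
      omega
  have hP2 : Nat.card P = p ^ 2 := by
    obtain ⟨e, he⟩ := hsyl P
    have h1 := P.pow_dvd_card_of_pow_dvd_card hdvd
    have h2 : p ^ e ∣ Nat.card H := he ▸ Subgroup.card_subgroup_dvd_card (P : Subgroup H)
    rw [he] at h1 ⊢
    have h4 := (Nat.pow_dvd_pow_iff_le_right hp.one_lt).1 h1
    have h5 : p ^ e < p ^ 3 := lt_of_le_of_lt (Nat.le_of_dvd hHpos h2) hlt
    have h6 := (Nat.pow_lt_pow_iff_right hp.one_lt).1 h5
    congr 1; omega
  have hidx : (P : Subgroup H).index < p := by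
    have h1 := (P : Subgroup H).card_mul_index
    have h2 : Nat.card (P : Subgroup H) = p ^ 2 := hP2
    rw [h2] at h1
    rw [← h1, pow_succ p 2] at hlt
    exact Nat.lt_of_mul_lt_mul_left hlt
  have hn1 : Nat.card (Sylow p H) = 1 := by
    have h1 := Nat.le_of_dvd (Nat.pos_of_ne_zero Subgroup.index_ne_zero_of_finite)
      P.card_dvd_index
    exact Nat.ModEq.eq_of_lt_of_lt (card_sylow_modEq_one p H) (by omega) hp.one_lt
  have hs : Subsingleton (Sylow p H) := (Nat.card_eq_one_iff_unique.1 hn1).1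
  exact ⟨P, P.normal_of_subsingleton, hP2, hP (Subgroup.mem_zpowers x)⟩

theorem gen {H : Type} [Group H] [Finite H] (p : ℕ) (hp : p.Prime) (h3 : p % 4 = 3) (x s : H)
    (hx : orderOf x = p) (hinv : s ^ 2 * x * (s ^ 2)⁻¹ = x⁻¹) (V : Subgroup H) (hV : V.Normal)
    (hc : Nat.card V = p ^ 2) (hxV : x ∈ V) : Subgroup.closure {x, s * x * s⁻¹} = V := by
  have hle : Subgroup.closure {x, s * x * s⁻¹} ≤ V := by
    rw [Subgroup.closure_le]
    rintro y (rfl | rfl)
    · exact hxV
    · exact hV.conj_mem x hxV s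
  apply Subgroup.eq_of_le_of_card_ge hle
  have h1 := Subgroup.card_dvd_of_le hle
  rw [hc] at h1 ⊢
  obtain ⟨e, he, h2⟩ := (Nat.dvd_prime_pow hp).1 h1
  by_contra hlt
  have he1 : e ≤ 1 := by
    by_contra h
    have : e = 2 := by omega
    rw [h2, this] at hlt; exact hlt le_rfl
  have hz : Subgroup.zpowers x ≤ Subgroup.closure {x, s * x * s⁻¹} := by
    rw [Subgroup.zpowers_le]; exact Subgroup.subset_closure (by simp)
  have h4 := Subgroup.eq_of_le_of_card_ge hz (by
    rw [h2, Nat.card_zpowers, hx]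
    calc p ^ e ≤ p ^ 1 := Nat.pow_le_pow_right hp.pos he1
      _ = p := pow_one p)
  apply notnorm p hp h3 x s hx hinv
  rw [h4]; exact Subgroup.subset_closure (by simp)

theorem commV {H : Type} [Group H] (p : ℕ) (hp : p.Prime) (V : Subgroup H)
    (hc : Nat.card V = p ^ 2) : ∀ u ∈ V, ∀ v ∈ V, u * v = v * u := by
  haveI : Fact p.Prime := ⟨hp⟩
  intro u hu v hv
  have := (IsPGroup.isMulCommutative_of_card_eq_prime_sq hc).is_comm.comm ⟨u, hu⟩ ⟨v, hv⟩
  exact congrArg Subtype.val this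

theorem invV {H : Type} [Group H] [Finite H] (p : ℕ) (hp : p.Prime) (h3 : p % 4 = 3) (x s : H)
    (hx : orderOf x = p) (hinv : s ^ 2 * x * (s ^ 2)⁻¹ = x⁻¹) (V : Subgroup H) (hV : V.Normal)
    (hc : Nat.card V = p ^ 2) (hxV : x ∈ V) : ∀ v ∈ V, s ^ 2 * v * (s ^ 2)⁻¹ = v⁻¹ := by
  have hg := gen p hp h3 x s hx hinv V hV hc hxV
  have hcm := commV p hp V hc
  intro v hv
  rw [← hg] at hv
  induction hv using Subgroup.closure_induction with
  | mem y hy =>
    rcases hy with rfl | rfl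
    · exact hinv
    · calc s ^ 2 * (s * x * s⁻¹) * (s ^ 2)⁻¹ = s * (s ^ 2 * x * (s ^ 2)⁻¹) * s⁻¹ := by group
        _ = _ := by rw [hinv]; group
  | one => simp
  | mul u v hu hv ihu ihv =>
    rw [hg] at hu hv
    calc s ^ 2 * (u * v) * (s ^ 2)⁻¹ = (s ^ 2 * u * (s ^ 2)⁻¹) * (s ^ 2 * v * (s ^ 2)⁻¹) := by
          group
      _ = (u * v)⁻¹ := by rw [ihu, ihv, hcm u hu v hv]; group
  | inv u hu ihu =>
    calc s ^ 2 * u⁻¹ * (s ^ 2)⁻¹ = (s ^ 2 * u * (s ^ 2)⁻¹)⁻¹ := by group
      _ = _ := by rw [ihu]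

end Pool.Agent.H.MP_a87126_al
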