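import Mathlib
import Pool.Agent.H.MP_a87126_al.Sec
import Pool.Agent.H.MP_a87126_al.Fano

namespace Pool.Agent.H.MP_a87126_al

theorem chi_ex : ∀ i : Fin 7, ∃ m, chi i m ≠ 0 := by decide

theorem z2 : ∀ a b : ZMod 2, a = 0 → b ≠ 0 → a + b ≠ 0 := by decide

theorem lower {H : Type} [Group H] [Finite H] (q R : ℕ → ℕ) (hq : ∀ i, (q i).Prime)
    (h3 : ∀ i, q i % 4 = 3) (hR0 : R 0 = 1) (hR : ∀ i, R (i + 1) = R i * q i ^ 2)
    (hbig : ∀ i, 256 * R i < q i - 1) (x : Fin 7 → H) (hx : ∀ i, orderOf (x i) = q i)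
    (r s : M → H) (hr : ∀ m n, r (m + n) = r m * r n) (hs : ∀ m, s m ^ 2 = r m) (hs0 : s 0 = 1)
    (hinv : ∀ i m, chi i m ≠ 0 → r m * x i * (r m)⁻¹ = (x i)⁻¹)
    (hcomm : ∀ i m, chi i m = 0 → s m * x i = x i * s m) : 128 * R 7 ≤ Nat.card H := by
  by_contra hlt
  rw [not_le] at hlt
  have hr0 : r 0 = 1 := by rw [← hs, hs0, one_pow]
  have hrr : ∀ m, r m * r m = 1 := fun m => by rw [← hr, M_two, hr0]
  have hRpos : ∀ i, 0 < R i := by
    intro i
    induction i with
    | zero => omega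
    | succ i ih => rw [hR]; exact Nat.mul_pos ih (pow_pos (hq i).pos 2)
  have hRmono : ∀ i j, j < i → q j ∣ R i := by
    intro i
    induction i with
    | zero => intro j hj; omega
    | succ i ih =>
      intro j hj
      rw [hR]
      rcases Nat.lt_succ_iff_lt_or_eq.1 hj with h | rfl
      · exact (ih j h).mul_right _
      · exact Dvd.dvd.mul_left (dvd_pow_self _ two_ne_zero) _
  have hne : ∀ i j, j < i → ¬ q j ∣ q i ^ 2 := by
    intro i j hj h
    have h1 := (Nat.prime_dvd_prime_iff_eq (hq j) (hq i)).1 ((hq j).dvd_of_dvd_pow h)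
    have h2 := Nat.le_of_dvd (hRpos i) (hRmono i j hj)
    have := hbig i
    omega
  have step : ∀ (i : Fin 7) (B : Subgroup H) [B.Normal], Nat.card B * R (i + 1) = R 7 →
      ¬ q i ∣ Nat.card B → orderOf (x i : H ⧸ B) = q i ∧
      ∃ V : Subgroup (H ⧸ B), V.Normal ∧ Nat.card V = q i ^ 2 ∧ (x i : H ⧸ B) ∈ V := by
    intro i B _ hB hnd
    have ho : orderOf (x i : H ⧸ B) = q i := by
      have h1 : orderOf (x i : H ⧸ B) ∣ q i :=
        hx i ▸ orderOf_map_dvd (QuotientGroup.mk' B) (x i)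
      rcases (Nat.dvd_prime (hq i)).1 h1 with h | h
      · exfalso
        rw [orderOf_eq_one_iff, QuotientGroup.eq_one_iff] at h
        exact hnd (hx i ▸ Subgroup.orderOf_dvd_natCard B h)
      · exact h
    obtain ⟨m, hm⟩ := chi_ex i
    refine ⟨ho, sec (q i) (hq i) (h3 i) _ (s m : H ⧸ B) ho ?_ ?_ ?_⟩
    · rw [← QuotientGroup.mk_pow, hs, ← QuotientGroup.mk_mul, hrr, QuotientGroup.mk_one]
    · rw [← QuotientGroup.mk_pow, hs, ← QuotientGroup.mk_mul, ← QuotientGroup.mk_inv,
        ← QuotientGroup.mk_mul, hinv i m hm, QuotientGroup.mk_inv]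
    · have h1 := Subgroup.card_eq_card_quotient_mul_card_subgroup B
      have h2 : 0 < Nat.card B := Nat.card_pos
      rw [h1, ← hB, hR] at hlt
      have h4 : Nat.card (H ⧸ B) < 128 * (R i * q i ^ 2) := by
        apply Nat.lt_of_mul_lt_mul_right (a := Nat.card B)
        linarith
      have h5 := Nat.mul_le_mul_left (q i ^ 2) (hbig i).le
      linarith
  have tower : ∀ k i, i + k = 7 → ∃ B : Subgroup H, B.Normal ∧ Nat.card B * R i = R 7 ∧
      ∀ j < i, ¬ q j ∣ Nat.card B := by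
    intro k
    induction k with
    | zero =>
      intro i hi
      refine ⟨⊥, inferInstance, by simp [← hi], fun j _ => ?_⟩
      simpa using (hq j).one_lt.ne'
    | succ k ih =>
      intro i hi
      obtain ⟨B, hBn, hB, hBd⟩ := ih (i + 1) (by omega)
      obtain ⟨-, V, hVn, hVc, -⟩ := step ⟨i, by omega⟩ B hB (hBd i (by omega))
      have hc : Nat.card (V.comap (QuotientGroup.mk' B)) = Nat.card B * q i ^ 2 := by
        rw [← hVc]; exact QuotientGroup.card_preimage_mk B V
      refine ⟨V.comap (QuotientGroup.mk' B), inferInstance, ?_, fun j hj => ?_⟩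
      · rw [hc, ← hB, hR]; ring
      · rw [hc]
        exact (hq j).not_dvd_mul (hBd j (by omega)) (hne i j hj)
  have data : ∀ i : Fin 7, ∃ K S : Subgroup H, K.Normal ∧ K ≤ S ∧
      (∀ m, chi i m = 0 → s m ∈ S) ∧ (∀ m, r m ∈ S → chi i m = 0) ∧
      (∀ m h, (r m * h)⁻¹ * (h * r m) ∈ K) ∧
      (∀ N : Subgroup H, N.Normal → x i ∈ N → q i ^ 2 ∣ Nat.card N) := by
    intro i
    obtain ⟨B, hBn, hB, hBd⟩ := tower (6 - i) (i + 1) (by omega)
    obtain ⟨ho, V, hVn, hVc, hxV⟩ := step i B hB (hBd i (by omega))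
    set π := QuotientGroup.mk' B with hπ
    have hinv' : ∀ m, chi i m ≠ 0 → π (s m) ^ 2 * π (x i) * (π (s m) ^ 2)⁻¹ = (π (x i))⁻¹ := by
      intro m hm
      rw [← map_pow, hs, ← map_mul, ← map_inv, ← map_mul, hinv i m hm, map_inv]
    have hI : ∀ m, chi i m ≠ 0 → ∀ v ∈ V, π (r m) * v * (π (r m))⁻¹ = v⁻¹ := by
      intro m hm v hv
      have := invV (q i) (hq i) (h3 i) _ _ ho (hinv' m hm) V hVn hVc hxV v hv
      rwa [← map_pow, hs] at this
    obtain ⟨m1, hm1⟩ := chi_ex i
    have hE : ∀ m, ∃ e : ℤ, ∀ v ∈ V, π (r m) * v * (π (r m))⁻¹ = v ^ e := by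
      intro m
      by_cases hm : chi i m = 0
      · refine ⟨1, fun v hv => ?_⟩
        have h1 : m = (m + m1) + m1 := by rw [add_assoc, M_two, add_zero]
        have h2 : chi i (m + m1) ≠ 0 := by rw [chi_add]; exact z2 _ _ hm hm1
        calc π (r m) * v * (π (r m))⁻¹ =
            π (r (m + m1)) * (π (r m1) * v * (π (r m1))⁻¹) * (π (r (m + m1)))⁻¹ := by
              conv_lhs => rw [h1, hr, map_mul]
              group
          _ = v ^ (1 : ℤ) := by rw [hI m1 hm1 v hv, hI _ h2 _ (V.inv_mem hv)]; simp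
      · exact ⟨-1, fun v hv => by rw [hI m hm v hv]; simp⟩
    refine ⟨(Subgroup.centralizer (V : Set (H ⧸ B))).comap π,
      (Subgroup.centralizer {π (x i)}).comap π, inferInstance,
      Subgroup.comap_mono (Subgroup.centralizer_le (Set.singleton_subset_iff.2 hxV)), ?_, ?_, ?_, ?_⟩
    · intro m hm
      rw [Subgroup.mem_comap, Subgroup.mem_centralizer_singleton_iff, ← map_mul, ← map_mul,
        hcomm i m hm]
    · intro m hm
      by_contra hm0
      rw [Subgroup.mem_comap, Subgroup.mem_centralizer_singleton_iff] at hm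
      have h1 := hI m hm0 _ hxV
      change π (r m) * π (x i) * _ = (π (x i))⁻¹ at h1
      rw [hm, mul_inv_cancel_right] at h1
      have h2 : orderOf (π (x i)) ∣ 2 := orderOf_dvd_of_pow_eq_one (by
        rw [sq]; nth_rewrite 1 [h1]; simp)
      have h4 : orderOf (π (x i)) = q i := ho
      rw [h4] at h2
      have := Nat.le_of_dvd (by norm_num) h2
      have := h3 i
      omega
    · intro m h
      obtain ⟨e, he⟩ := hE m
      rw [Subgroup.mem_comap, Subgroup.mem_centralizer_iff]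
      intro v hv
      simp only [map_mul, map_inv]
      have h1 : (π h * π (r m)) * v * (π h * π (r m))⁻¹ =
          (π (r m) * π h) * v * (π (r m) * π h)⁻¹ := by
        calc (π h * π (r m)) * v * (π h * π (r m))⁻¹ =
            π h * (π (r m) * v * (π (r m))⁻¹) * (π h)⁻¹ := by group
          _ = (π h * v * (π h)⁻¹) ^ e := by rw [he v hv, conj_zpow]
          _ = _ := by rw [← he _ (hVn.conj_mem v hv _)]; group
      calc v * ((π (r m) * π h)⁻¹ * (π h * π (r m))) = (π (r m) * π h)⁻¹ *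
            ((π (r m) * π h) * v * (π (r m) * π h)⁻¹) * (π h * π (r m)) := by group
        _ = _ := by rw [← h1]; group
    · intro N hN hxN
      have hg := gen (q i) (hq i) (h3 i) _ _ ho (hinv' m1 hm1) V hVn hVc hxV
      have h1 : V ≤ N.map π := by
        rw [← hg, Subgroup.closure_le]
        rintro y (rfl | rfl)
        · exact ⟨x i, hxN, rfl⟩
        · exact ⟨s m1 * x i * (s m1)⁻¹, hN.conj_mem _ hxN _, by simp [hπ]⟩
      rw [← hVc]
      exact (Subgroup.card_dvd_of_le h1).trans (Subgroup.card_map_dvd N π)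
  choose K S hKn hKS hsS hrS hrK hdv using data
  set K0 : Subgroup H := ⨅ i, K i with hK0
  haveI hK0n : K0.Normal := Subgroup.normal_iInf_normal hKn
  have hrK0 : ∀ m h, (r m * h)⁻¹ * (h * r m) ∈ K0 := fun m h =>
    Subgroup.mem_iInf.2 fun i => hrK i m h
  have hxK : ∀ i, x i ∈ K0 := by
    intro i
    obtain ⟨m, hm⟩ := chi_ex i
    have h1 := hrK0 m (x i)
    have h2 : (r m * x i)⁻¹ * (x i * r m) = ((x i) ^ 2)⁻¹ := by
      calc (r m * x i)⁻¹ * (x i * r m) = (x i)⁻¹ * (r m)⁻¹ * ((x i)⁻¹)⁻¹ * r m := by group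
        _ = _ := by
          nth_rewrite 2 [← hinv i m hm]
          rw [sq]; group
    rw [h2, inv_mem_iff] at h1
    have h4 : (x i ^ 2) ^ ((q i + 1) / 2) = x i := by
      rw [← pow_mul, show 2 * ((q i + 1) / 2) = q i + 1 by have := h3 i; omega, pow_succ, ← hx i,
        pow_orderOf_eq_one, one_mul]
    rw [← h4]; exact K0.pow_mem h1 _
  have hRK : ∀ i ≤ 7, R i ∣ Nat.card K0 := by
    intro i
    induction i with
    | zero => intro _; rw [hR0]; exact one_dvd _
    | succ i ih =>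
      intro hi
      rw [hR]
      apply Nat.Coprime.mul_dvd_of_dvd_of_dvd _ (ih (by omega))
        (hdv ⟨i, by omega⟩ K0 hK0n (hxK _))
      apply Nat.Coprime.pow_right
      apply Nat.Coprime.symm
      rw [(hq i).coprime_iff_not_dvd]
      intro h
      have := Nat.le_of_dvd (hRpos i) h
      have := hbig i
      omega
  have hL : Nat.card (H ⧸ K0) < 128 := by
    have h1 := Subgroup.card_eq_card_quotient_mul_card_subgroup K0
    have h2 := Nat.le_of_dvd Nat.card_pos (hRK 7 le_rfl)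
    apply Nat.lt_of_mul_lt_mul_right (a := Nat.card K0)
    rw [← h1]
    exact lt_of_lt_of_le hlt (Nat.mul_le_mul_left _ h2)
  refine fano hL (fun m => (r m : H ⧸ K0)) (fun m => (s m : H ⧸ K0)) ?_ ?_ ?_ ?_
    (fun i => (S i).map (QuotientGroup.mk' K0)) ?_ ?_
  · intro m n; simp only [hr, QuotientGroup.mk_mul]
  · intro m h
    obtain ⟨h, rfl⟩ := QuotientGroup.mk_surjective h
    simp only [← QuotientGroup.mk_mul]
    exact QuotientGroup.eq.2 (hrK0 m h)
  · intro m; simp only [← QuotientGroup.mk_pow, hs]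
  · simp only [hs0, QuotientGroup.mk_one]
  · intro i m hm; exact ⟨s m, hsS i m hm, rfl⟩
  · rintro i m ⟨h, hh, he⟩
    apply hrS
    have h1 : h⁻¹ * r m ∈ K0 := QuotientGroup.eq.1 he
    have h2 := (S i).mul_mem hh (hKS i (Subgroup.mem_iInf.1 h1 i))
    simpa using h2

end Pool.Agent.H.MP_a87126_al
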