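import Mathlib
import Pool.Agent.H.MP_a87126_al.Main

namespace Pool.Agent.H.MP_a87126_al

def eps (i : Fin 7) (m : M) : ℤ := if chi i m = 0 then 1 else -1

theorem eps_add : ∀ i m n, eps i (m + n) = eps i m * eps i n := by
  intro i m n
  simp only [eps, chi_add]
  generalize chi i m = a
  generalize chi i n = b
  revert a b
  decide

theorem eps_zero (i : Fin 7) : eps i 0 = 1 := by simp [eps, chi]

theorem eps_sq (i : Fin 7) (m : M) : eps i m * eps i m = 1 := by
  rw [← eps_add, M_two, eps_zero]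

@[ext] structure GG (q : ℕ → ℕ) : Type where
  a : (i : Fin 7) → ZMod (q i)
  m : M

variable {q : ℕ → ℕ}

instance : Mul (GG q) := ⟨fun g h => ⟨fun i => g.a i + eps i g.m * h.a i, g.m + h.m⟩⟩
instance : One (GG q) := ⟨⟨0, 0⟩⟩
instance : Inv (GG q) := ⟨fun g => ⟨fun i => - (eps i g.m * g.a i), g.m⟩⟩

@[simp] theorem mul_a (g h : GG q) (i : Fin 7) : (g * h).a i = g.a i + eps i g.m * h.a i := rfl
@[simp] theorem mul_m (g h : GG q) : (g * h).m = g.m + h.m := rfl
@[simp] theorem one_a (i : Fin 7) : (1 : GG q).a i = 0 := rfl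
@[simp] theorem one_m : (1 : GG q).m = 0 := rfl
@[simp] theorem inv_a (g : GG q) (i : Fin 7) : g⁻¹.a i = - (eps i g.m * g.a i) := rfl
@[simp] theorem inv_m (g : GG q) : g⁻¹.m = g.m := rfl

instance : Group (GG q) := Group.ofLeftAxioms
  (by
    intro g h k
    ext1
    · funext i; simp only [mul_a, mul_m, eps_add]; push_cast; ring
    · simp only [mul_m, add_assoc])
  (by
    intro g
    ext1
    · funext i; simp [eps_zero]
    · simp)
  (by
    intro g
    ext1
    · funext i; simp
    · simp [M_two])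

def eqv : GG q ≃ ((i : Fin 7) → ZMod (q i)) × M where
  toFun g := (g.a, g.m)
  invFun p := ⟨p.1, p.2⟩
  left_inv _ := rfl
  right_inv _ := rfl

theorem card_GG : Nat.card (GG q) = (∏ i : Fin 7, q i) * 8 := by
  rw [Nat.card_congr eqv, Nat.card_prod, Nat.card_pi]
  simp

theorem pow_eq (g : GG q) (hg : ∀ i : Fin 7, (eps i g.m : ZMod (q i)) * g.a i = g.a i) (n : ℕ) :
    g ^ n = ⟨fun i => n * g.a i, n • g.m⟩ := by
  induction n with
  | zero => ext1; · funext i; simp
            · simp
  | succ n ih =>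
    rw [pow_succ', ih]
    ext1
    · funext i
      simp only [mul_a]; push_cast
      linear_combination (n : ZMod (q i)) * hg i
    · simp only [mul_m, succ_nsmul']

def xx (q : ℕ → ℕ) (i : Fin 7) : GG q := ⟨Pi.single i 1, 0⟩
def rr (q : ℕ → ℕ) (m : M) : GG q := ⟨0, m⟩
def gg (q : ℕ → ℕ) (m : M) : GG q := ⟨fun i => if chi i m = 0 then 1 else 0, m⟩

theorem gg_ok (m : M) (i : Fin 7) :
    (eps i (gg q m).m : ZMod (q i)) * (gg q m).a i = (gg q m).a i := by
  by_cases h : chi i m = 0 <;> simp [gg, eps, h]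

theorem even_smul (n : ℕ) (m : M) : (2 * n) • m = 0 := by
  rw [mul_comm, mul_smul, two_smul, M_two, smul_zero]

theorem lowerG (q R : ℕ → ℕ) (hq : ∀ i, (q i).Prime)
    (h3 : ∀ i, q i % 4 = 3) (hR0 : R 0 = 1) (hR : ∀ i, R (i + 1) = R i * q i ^ 2)
    (hbig : ∀ i, 256 * R i < q i - 1) (hinj : Function.Injective q)
    {H : Type} [Group H] [Finite H] (ι : GG q →* H)
    (hι : Function.Injective ι) (hsq : ∀ g, ∃ h, h ^ 2 = ι g) :
    2 * Nat.card (GG q) ^ 2 ≤ Nat.card H := by
  have hR7 : ∀ n, R n = (∏ i ∈ Finset.range n, q i) ^ 2 := by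
    intro n
    induction n with
    | zero => simp [hR0]
    | succ n ih => rw [hR, ih, Finset.prod_range_succ, mul_pow]
  have hc : 2 * Nat.card (GG q) ^ 2 = 128 * R 7 := by
    rw [card_GG, hR7, Fin.prod_univ_eq_prod_range]; ring
  rw [hc]
  set o := ∏ i : Fin 7, q i with ho
  have hodd : Odd o := by
    rw [ho]
    apply Finset.prod_induction _ Odd (fun a b => Odd.mul) odd_one
    intro i _
    exact Nat.odd_iff.2 (by have := h3 i; omega)
  have hroot : ∀ m : M, ∃ t : H, t ^ 2 = ι (rr q m) ∧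
      (∀ i, chi i m = 0 → t * ι (xx q i) = ι (xx q i) * t) ∧ (m = 0 → t = 1) := by
    intro m
    by_cases hm : m = 0
    · refine ⟨1, ?_, fun i _ => by simp, fun _ => rfl⟩
      rw [hm, one_pow, ← map_one ι]; rfl
    obtain ⟨h, hh⟩ := hsq (gg q m)
    refine ⟨h ^ o, ?_, fun i hi => ?_, fun h => absurd h hm⟩
    · rw [← pow_mul, mul_comm, pow_mul, hh, ← map_pow, pow_eq _ (gg_ok m)]
      congr 1
      ext1
      · funext i
        have : (o : ZMod (q i)) = 0 :=
          (ZMod.natCast_eq_zero_iff _ _).2 (Finset.dvd_prod_of_mem _ (Finset.mem_univ i))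
        simp [this, rr]
      · obtain ⟨k, hk⟩ := hodd
        simp only [rr, gg]
        rw [hk, succ_nsmul, even_smul, zero_add]
    · haveI : Fact (q i).Prime := ⟨hq i⟩
      set c := ∏ j ∈ Finset.univ.erase i, q j with hcdef
      have hc0 : ((2 * c : ℕ) : ZMod (q i)) ≠ 0 := by
        rw [Ne, ZMod.natCast_eq_zero_iff]
        apply (hq i).not_dvd_mul
        · intro h
          have := Nat.le_of_dvd (by norm_num) h
          have := h3 i
          omega
        · rw [hcdef, (Nat.Prime.prime (hq i)).dvd_finset_prod_iff]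
          rintro ⟨j, hj, hd⟩
          have := hinj ((Nat.prime_dvd_prime_iff_eq (hq i) (hq j)).1 hd)
          exact (Finset.mem_erase.1 hj).1 (Fin.ext this.symm)
      have hx : xx q i = gg q m ^ (2 * (c * (((2 * c : ℕ) : ZMod (q i))⁻¹).val)) := by
        rw [pow_eq _ (gg_ok m)]
        ext1
        · funext j
          by_cases hj : j = i
          · subst hj
            simp only [xx, gg, hi, if_true, Pi.single_eq_same, mul_one]
            rw [← mul_assoc, Nat.cast_mul, ZMod.natCast_zmod_val, mul_inv_cancel₀ hc0]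
          · have : (c : ZMod (q j)) = 0 :=
              (ZMod.natCast_eq_zero_iff _ _).2
                (Finset.dvd_prod_of_mem _ (Finset.mem_erase.2 ⟨hj, Finset.mem_univ j⟩))
            simp only [xx, Pi.single_eq_of_ne hj]
            rw [Nat.cast_mul, Nat.cast_mul, this]; simp
        · simp only [xx, even_smul]
      rw [hx, map_pow, ← hh, ← pow_mul, ← pow_add, ← pow_add, add_comm]
  choose s hs hsc hs0 using hroot
  refine lower q R hq h3 hR0 hR hbig (fun i => ι (xx q i)) ?_ (fun m => ι (rr q m)) s ?_ hs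
    (hs0 0 rfl) ?_ (fun i m h => hsc m i h)
  · intro i
    haveI : Fact (q i).Prime := ⟨hq i⟩
    rw [orderOf_injective ι hι]
    apply orderOf_eq_prime
    · rw [pow_eq _ (by intro j; simp [xx, eps_zero])]
      ext1
      · funext j
        by_cases hj : j = i
        · subst hj; simp
        · simp [xx, Pi.single_eq_of_ne hj]
      · simp [xx]
    · intro h
      have := congrFun (congrArg GG.a h) i
      simp [xx] at this
  · intro m n
    rw [← map_mul]; congr 1
    ext1
    · funext i; simp [rr]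
    · simp [rr]
  · intro i m hm
    simp only [← map_mul, ← map_inv]
    congr 1
    ext1
    · funext j
      by_cases hj : j = i
      · subst hj
        have h0 : chi j 0 = 0 := by simp [chi]
        simp [rr, xx, eps, hm, h0]
      · simp [rr, xx, Pi.single_eq_of_ne hj]
    · simp [rr, xx, M_two]

theorem primes (N : ℕ) : ∃ q R : ℕ → ℕ, (∀ i, (q i).Prime) ∧ (∀ i, q i % 4 = 3) ∧ R 0 = 1 ∧
    (∀ i, R (i + 1) = R i * q i ^ 2) ∧ (∀ i, 256 * R i < q i - 1) ∧ Function.Injective q ∧
    ∀ i, N < q i := by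
  have h : ∀ t : ℕ, ∃ p, 256 * t + 1 + N < p ∧ p.Prime ∧ p % 4 = 3 := by
    intro t
    obtain ⟨p, h1, h2, h4⟩ := Nat.forall_exists_prime_gt_and_modEq (256 * t + 1 + N)
      (q := 4) (a := 3) (by norm_num) (by norm_num)
    exact ⟨p, h1, h2, h4⟩
  choose f hf using h
  let R : ℕ → ℕ := fun n => Nat.rec 1 (fun _ t => t * f t ^ 2) n
  have hR : ∀ i, R (i + 1) = R i * f (R i) ^ 2 := fun i => rfl
  have hpos : ∀ i, 0 < R i := by
    intro i
    induction i with
    | zero => exact one_pos
    | succ i ih => rw [hR]; exact Nat.mul_pos ih (pow_pos (hf _).2.1.pos 2)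
  refine ⟨fun i => f (R i), R, fun i => (hf _).2.1, fun i => (hf _).2.2, rfl, hR,
    fun i => by have := (hf (R i)).1; beta_reduce; omega, ?_,
    fun i => by have := (hf (R i)).1; beta_reduce; omega⟩
  apply StrictMono.injective
  apply strictMono_nat_of_lt_succ
  intro i
  have h1 := (hf (R (i + 1))).1
  have h2 : f (R i) ≤ R (i + 1) := by
    rw [hR]
    exact (Nat.le_self_pow two_ne_zero _).trans (Nat.le_mul_of_pos_left _ (hpos i))
  show f (R i) < f (R (i + 1))
  omega

theorem upper (G : Type) [Group G] [Finite G] : ∃ (H : Type) (_ : Group H) (_ : Finite H)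
    (ι : G →* H), Function.Injective ι ∧ (∀ g, ∃ h, h ^ 2 = ι g) ∧
      Nat.card H = 2 * Nat.card G ^ 2 := by
  have hc : Nat.card (G ≀ᵣ Multiplicative (ZMod 2)) = 2 * Nat.card G ^ 2 := by
    rw [RegularWreathProduct.card]; simp [mul_comm]
  have hf : Finite (G ≀ᵣ Multiplicative (ZMod 2)) := by
    apply Nat.finite_of_card_ne_zero
    rw [hc]
    have : 0 < Nat.card G := Nat.card_pos
    positivity
  refine ⟨G ≀ᵣ Multiplicative (ZMod 2), inferInstance, hf,
    MonoidHom.mk' (fun g => ⟨fun _ => g, 1⟩) ?_, ?_, ?_, hc⟩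
  · intro a b
    ext x <;> simp
  · intro a b h
    exact congrFun (congrArg RegularWreathProduct.left h) 1
  · intro g
    refine ⟨⟨fun x => if x = 1 then g else 1, Multiplicative.ofAdd 1⟩, ?_⟩
    rw [sq]
    have h1 : ∀ x : Multiplicative (ZMod 2),
        (x = 1 ∧ (Multiplicative.ofAdd (1 : ZMod 2))⁻¹ * x ≠ 1) ∨
        (x ≠ 1 ∧ (Multiplicative.ofAdd (1 : ZMod 2))⁻¹ * x = 1) := by decide
    ext x
    · rcases h1 x with ⟨h, h'⟩ | ⟨h, h'⟩
      · simp only [RegularWreathProduct.mul_left, Pi.mul_apply, if_pos h, if_neg h']; simp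
      · simp only [RegularWreathProduct.mul_left, Pi.mul_apply, if_pos h', if_neg h]; simp
    · simp only [RegularWreathProduct.mul_right]
      rfl

end Pool.Agent.H.MP_a87126_al
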